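import Pool.Agent.X89.KC3

/-!
# MP_3c4fb9_al, Q1: affirmative answer

A square pencil `A + λ B` whose Kronecker form has `L^T`-blocks of sizes `δ b` and `L`-blocks of
sizes `ε c` such that for every `d ≥ 1`, `d` times the number of `L^T`-blocks of size `d` is at most
the number of `L^T`-blocks of smaller size, and the same for the `L`-blocks, can be multiplied on
the left by an invertible `E` such that `E A` and `E B` commute.
-/

open Finset Matrix

namespace Pool.Agent.Results.MP_3c4fb9_al.Commuting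

/-- the coefficient of `λ^0` in the block `L_e`: ones in the positions `(i, i+1)` -/
def LA (e : ℕ) : Matrix (Fin e) (Fin (e + 1)) ℂ :=
  Matrix.of fun i j => if (j : ℕ) = i + 1 then 1 else 0

/-- the coefficient of `λ` in the block `L_e`: ones in the positions `(i, i)` -/
def LB (e : ℕ) : Matrix (Fin e) (Fin (e + 1)) ℂ :=
  Matrix.of fun i j => if (j : ℕ) = i then 1 else 0

/-- rows of the Kronecker form -/
abbrev Rows {p : ℕ} (δ ε : Fin p → ℕ) (r : ℕ) : Type :=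
  ((Σ b : Fin p, Fin (δ b + 1)) ⊕ (Σ c : Fin p, Fin (ε c))) ⊕ Fin r

/-- columns of the Kronecker form -/
abbrev Cols {p : ℕ} (δ ε : Fin p → ℕ) (r : ℕ) : Type :=
  ((Σ b : Fin p, Fin (δ b)) ⊕ (Σ c : Fin p, Fin (ε c + 1))) ⊕ Fin r

/-- the block diagonal matrix with the blocks `(M (δ b))ᵀ`, then the blocks `M (ε c)`, then `Q` -/
def kron (M : ∀ e : ℕ, Matrix (Fin e) (Fin (e + 1)) ℂ) {p r : ℕ} (δ ε : Fin p → ℕ)
    (Q : Matrix (Fin r) (Fin r) ℂ) : Matrix (Rows δ ε r) (Cols δ ε r) ℂ :=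
  fromBlocks (fromBlocks (blockDiagonal' fun b => (M (δ b))ᵀ) 0 0 (blockDiagonal' fun c => M (ε c)))
    0 0 Q

/-- `A + λ B` is strictly equivalent to the block diagonal pencil with the blocks `L_{δ b}^T`,
`L_{ε c}` and a regular part `QA + λ QB` -/
def HasKroneckerForm {N p r : ℕ} (A B : Matrix (Fin N) (Fin N) ℂ) (δ ε : Fin p → ℕ)
    (QA QB : Matrix (Fin r) (Fin r) ℂ) : Prop :=
  ∃ (S : Matrix (Rows δ ε r) (Fin N) ℂ) (S' : Matrix (Fin N) (Rows δ ε r) ℂ)
    (T : Matrix (Fin N) (Cols δ ε r) ℂ) (T' : Matrix (Cols δ ε r) (Fin N) ℂ),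
    S * S' = 1 ∧ S' * S = 1 ∧ T * T' = 1 ∧ T' * T = 1 ∧
    S * A * T = kron LA δ ε QA ∧ S * B * T = kron LB δ ε QB

/-- the inequalities of the question: `d · #{blocks of size d} ≤ #{blocks of size < d}` -/
def Sizes {p : ℕ} (δ : Fin p → ℕ) : Prop :=
  ∀ d : ℕ, 1 ≤ d → d * #{b | δ b = d} ≤ #{b | δ b < d}

/-- the Toeplitz part -/
def toep {p : ℕ} (δ : Fin p → ℕ) (γ : Fin p → Fin p → ℤ → ℂ) :
    Matrix (Σ b : Fin p, Fin (δ b)) (Σ b : Fin p, Fin (δ b + 1)) ℂ :=
  Matrix.of fun x y => γ x.1 y.1 ((x.2 : ℕ) - ((y.2 : ℕ) : ℤ))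

/-- the Hankel part -/
def hank {p : ℕ} (δ ε : Fin p → ℕ) (h : Fin p → Fin p → ℕ → ℂ) :
    Matrix (Σ b : Fin p, Fin (ε b + 1)) (Σ b : Fin p, Fin (δ b + 1)) ℂ :=
  Matrix.of fun x y => h x.1 y.1 ((x.2 : ℕ) + (y.2 : ℕ))

section entries
variable {p : ℕ} (δ : Fin p → ℕ) {ι : Type*}

lemma mul_LAT (M : Matrix ι (Σ b : Fin p, Fin (δ b + 1)) ℂ) (x : ι) (b : Fin p) (j : Fin (δ b)) :
    (M * blockDiagonal' fun b => (LA (δ b))ᵀ) x ⟨b, j⟩ = M x ⟨b, j.succ⟩ := by
  rw [Matrix.mul_apply, Fintype.sum_sigma, sum_eq_single b]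
  · rw [sum_eq_single j.succ]
    · simp [LA, blockDiagonal'_apply_eq]
    · intro i _ hi
      rw [blockDiagonal'_apply_eq]
      simp only [LA, transpose_apply, Matrix.of_apply]
      rw [if_neg, mul_zero]
      intro h; exact hi (Fin.ext (by simpa using h))
    · intro h; exact absurd (mem_univ _) h
  · intro b' _ hb
    exact sum_eq_zero fun i _ => by rw [blockDiagonal'_apply_ne _ _ _ hb, mul_zero]
  · intro h; exact absurd (mem_univ _) h

lemma mul_LBT (M : Matrix ι (Σ b : Fin p, Fin (δ b + 1)) ℂ) (x : ι) (b : Fin p) (j : Fin (δ b)) :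
    (M * blockDiagonal' fun b => (LB (δ b))ᵀ) x ⟨b, j⟩ = M x ⟨b, j.castSucc⟩ := by
  rw [Matrix.mul_apply, Fintype.sum_sigma, sum_eq_single b]
  · rw [sum_eq_single j.castSucc]
    · simp [LB, blockDiagonal'_apply_eq]
    · intro i _ hi
      rw [blockDiagonal'_apply_eq]
      simp only [LB, transpose_apply, Matrix.of_apply]
      rw [if_neg, mul_zero]
      intro h; exact hi (Fin.ext (by simpa using h))
    · intro h; exact absurd (mem_univ _) h
  · intro b' _ hb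
    exact sum_eq_zero fun i _ => by rw [blockDiagonal'_apply_ne _ _ _ hb, mul_zero]
  · intro h; exact absurd (mem_univ _) h

lemma LAT_mul (M : Matrix (Σ b : Fin p, Fin (δ b)) ι ℂ) (b : Fin p) (i : Fin (δ b + 1)) (y : ι) :
    ((blockDiagonal' fun b => (LA (δ b))ᵀ) * M) ⟨b, i⟩ y =
      if h : 1 ≤ (i : ℕ) then M ⟨b, ⟨i - 1, by omega⟩⟩ y else 0 := by
  rw [Matrix.mul_apply, Fintype.sum_sigma, sum_eq_single b]
  · split_ifs with h
    · rw [sum_eq_single ⟨i - 1, by omega⟩]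
      · rw [blockDiagonal'_apply_eq]
        simp only [LA, transpose_apply, Matrix.of_apply]
        rw [if_pos (by omega), one_mul]
      · intro j _ hj
        rw [blockDiagonal'_apply_eq]
        simp only [LA, transpose_apply, Matrix.of_apply]
        rw [if_neg, zero_mul]
        intro h'; exact hj (Fin.ext (by simp; omega))
      · intro h'; exact absurd (mem_univ _) h'
    · refine sum_eq_zero fun j _ => ?_
      rw [blockDiagonal'_apply_eq]
      simp only [LA, transpose_apply, Matrix.of_apply]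
      rw [if_neg (by omega), zero_mul]
  · intro b' _ hb
    exact sum_eq_zero fun i _ => by rw [blockDiagonal'_apply_ne _ _ _ (Ne.symm hb), zero_mul]
  · intro h; exact absurd (mem_univ _) h

lemma LBT_mul (M : Matrix (Σ b : Fin p, Fin (δ b)) ι ℂ) (b : Fin p) (i : Fin (δ b + 1)) (y : ι) :
    ((blockDiagonal' fun b => (LB (δ b))ᵀ) * M) ⟨b, i⟩ y =
      if h : (i : ℕ) < δ b then M ⟨b, ⟨i, h⟩⟩ y else 0 := by
  rw [Matrix.mul_apply, Fintype.sum_sigma, sum_eq_single b]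
  · split_ifs with h
    · rw [sum_eq_single ⟨i, h⟩]
      · rw [blockDiagonal'_apply_eq]
        simp only [LB, transpose_apply, Matrix.of_apply]
        rw [if_pos (by trivial), one_mul]
      · intro j _ hj
        rw [blockDiagonal'_apply_eq]
        simp only [LB, transpose_apply, Matrix.of_apply]
        rw [if_neg, zero_mul]
        intro h'; exact hj (Fin.ext (by simp; omega))
      · intro h'; exact absurd (mem_univ _) h'
    · refine sum_eq_zero fun j _ => ?_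
      rw [blockDiagonal'_apply_eq]
      simp only [LB, transpose_apply, Matrix.of_apply]
      rw [if_neg (by omega), zero_mul]
  · intro b' _ hb
    exact sum_eq_zero fun i _ => by rw [blockDiagonal'_apply_ne _ _ _ (Ne.symm hb), zero_mul]
  · intro h; exact absurd (mem_univ _) h

end entries

/-- the Toeplitz part satisfies the commutation identity on the `L^T`-blocks -/
lemma toep_comm {p : ℕ} (δ : Fin p → ℕ) (γ : Fin p → Fin p → ℤ → ℂ)
    (hγ : ∀ q b t, γ q b t ≠ 0 → 0 ≤ t ∧ t + δ b + 1 ≤ δ q) :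
    (blockDiagonal' fun b => (LA (δ b))ᵀ) * toep δ γ * (blockDiagonal' fun b => (LB (δ b))ᵀ) =
    (blockDiagonal' fun b => (LB (δ b))ᵀ) * toep δ γ * (blockDiagonal' fun b => (LA (δ b))ᵀ) := by
  ext ⟨q, i⟩ ⟨b, j⟩
  rw [mul_LBT, mul_LAT, LAT_mul, LBT_mul]
  have hi := i.2
  have hj := j.2
  have h0 : ∀ t : ℤ, ¬ (0 ≤ t ∧ t + δ b + 1 ≤ δ q) → γ q b t = 0 := fun t ht => by
    by_contra h; exact ht (hγ q b t h)
  split_ifs with h1 h2 h2
  · simp only [toep, Matrix.of_apply, Fin.val_succ, Fin.val_castSucc]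
    congr 1
    push_cast [Nat.cast_sub h1]
    ring
  · simp only [toep, Matrix.of_apply, Fin.val_castSucc]
    exact h0 _ (by omega)
  · simp only [toep, Matrix.of_apply, Fin.val_succ]
    exact (h0 _ (by omega)).symm
  · rfl

/-- the transposed identity, for the `L`-blocks -/
lemma toep_comm' {p : ℕ} (ε : Fin p → ℕ) (γ : Fin p → Fin p → ℤ → ℂ)
    (hγ : ∀ q b t, γ q b t ≠ 0 → 0 ≤ t ∧ t + ε b + 1 ≤ ε q) :
    (blockDiagonal' fun b => LA (ε b)) * (toep ε γ)ᵀ * (blockDiagonal' fun b => LB (ε b)) =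
    (blockDiagonal' fun b => LB (ε b)) * (toep ε γ)ᵀ * (blockDiagonal' fun b => LA (ε b)) := by
  have h := congrArg Matrix.transpose (toep_comm ε γ hγ)
  simp only [Matrix.transpose_mul, blockDiagonal'_transpose, Matrix.transpose_transpose] at h
  rw [← Matrix.mul_assoc, ← Matrix.mul_assoc] at h
  exact h.symm

lemma LA_mul {p : ℕ} (ε : Fin p → ℕ) {ι : Type*} (M : Matrix (Σ b : Fin p, Fin (ε b + 1)) ι ℂ)
    (b : Fin p) (j : Fin (ε b)) (y : ι) :
    ((blockDiagonal' fun b => LA (ε b)) * M) ⟨b, j⟩ y = M ⟨b, j.succ⟩ y := by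
  have h := mul_LAT ε Mᵀ y b j
  rw [← Matrix.transpose_apply (Mᵀ * _), Matrix.transpose_mul, blockDiagonal'_transpose] at h
  simpa using h

lemma LB_mul {p : ℕ} (ε : Fin p → ℕ) {ι : Type*} (M : Matrix (Σ b : Fin p, Fin (ε b + 1)) ι ℂ)
    (b : Fin p) (j : Fin (ε b)) (y : ι) :
    ((blockDiagonal' fun b => LB (ε b)) * M) ⟨b, j⟩ y = M ⟨b, j.castSucc⟩ y := by
  have h := mul_LBT ε Mᵀ y b j
  rw [← Matrix.transpose_apply (Mᵀ * _), Matrix.transpose_mul, blockDiagonal'_transpose] at h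
  simpa using h

/-- the Hankel part satisfies the mixed identity -/
lemma hank_comm {p : ℕ} (δ ε : Fin p → ℕ) (h : Fin p → Fin p → ℕ → ℂ) :
    (blockDiagonal' fun b => LA (ε b)) * hank δ ε h * (blockDiagonal' fun b => (LB (δ b))ᵀ) =
    (blockDiagonal' fun b => LB (ε b)) * hank δ ε h * (blockDiagonal' fun b => (LA (δ b))ᵀ) := by
  ext ⟨q, i⟩ ⟨b, j⟩
  rw [mul_LBT, mul_LAT, LA_mul, LB_mul]
  simp only [hank, Matrix.of_apply, Fin.val_succ, Fin.val_castSucc]
  congr 1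
  omega

/-- the kernel of the Toeplitz part has dimension `p` -/
lemma finrank_ker {p : ℕ} (δ : Fin p → ℕ) (γ : Fin p → Fin p → ℤ → ℂ)
    (hs : ∀ v : (Σ q : Fin p, Fin (δ q)) → ℂ, ∃ u : (Σ b : Fin p, Fin (δ b + 1)) → ℂ,
        ∀ x, v x = ∑ y, γ x.1 y.1 ((x.2 : ℕ) - ((y.2 : ℕ) : ℤ)) * u y) :
    Module.finrank ℂ (LinearMap.ker (toep δ γ).mulVecLin) = p := by
  have hsurj : LinearMap.range (toep δ γ).mulVecLin = ⊤ := by
    rw [LinearMap.range_eq_top]
    intro v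
    obtain ⟨u, hu⟩ := hs v
    refine ⟨u, ?_⟩
    funext x
    rw [hu x]
    rfl
  have h := LinearMap.finrank_range_add_finrank_ker (toep δ γ).mulVecLin
  rw [hsurj, finrank_top, Module.finrank_fintype_fun_eq_card, Module.finrank_fintype_fun_eq_card,
    Fintype.card_sigma, Fintype.card_sigma] at h
  simp only [Fintype.card_fin, sum_add_distrib, sum_const, card_univ, smul_eq_mul, mul_one] at h
  omega

/-- **Affirmative answer to Q1.** -/
theorem result {N p r : ℕ} (A B : Matrix (Fin N) (Fin N) ℂ) (δ ε : Fin p → ℕ)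
    (QA QB : Matrix (Fin r) (Fin r) ℂ) (hform : HasKroneckerForm A B δ ε QA QB)
    (hreg : ∃ c : ℂ, (QA + c • QB).det ≠ 0) (hδ : Sizes δ) (hε : Sizes ε) :
    ∃ E : Matrix (Fin N) (Fin N) ℂ, IsUnit E ∧ Commute (E * A) (E * B) := by
  classical
  obtain ⟨S, S', T, T', hS, hS', hT, hT', hA, hB⟩ := hform
  obtain ⟨γ, hγ, hγs⟩ := Pool.Agent.X89.KC.staircase δ hδ
  obtain ⟨η, hη, hηs⟩ := Pool.Agent.X89.KC.staircase ε hε
  obtain ⟨h, hh⟩ := Pool.Agent.X89.KC.hankel δ ε (LinearMap.ker (toep δ γ).mulVecLin)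
    (LinearMap.ker (toep ε η).mulVecLin) (finrank_ker δ γ hγs) (finrank_ker ε η hηs)
  obtain ⟨c, hc⟩ := hreg
  obtain ⟨E₁, hE₁⟩ : ∃ E₁ : Matrix _ _ ℂ, E₁ = fromBlocks (toep δ γ) 0 (hank δ ε h) (toep ε η)ᵀ :=
    ⟨_, rfl⟩
  obtain ⟨E₂, hE₂⟩ : ∃ E₂ : Matrix (Fin r) (Fin r) ℂ, E₂ = (QA + c • QB)⁻¹ := ⟨_, rfl⟩
  obtain ⟨F, hF⟩ : ∃ F : Matrix (Cols δ ε r) (Rows δ ε r) ℂ, F = fromBlocks E₁ 0 0 E₂ := ⟨_, rfl⟩
  have hu : IsUnit (QA + c • QB).det := isUnit_iff_ne_zero.2 hc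
  -- commutation for the regular part
  have hcomm₂ : QA * E₂ * QB = QB * E₂ * QA := by
    have h1 : QA = (QA + c • QB) - c • QB := by abel
    have h2 : QA * E₂ = 1 - c • (QB * E₂) := by
      conv_lhs => rw [h1]
      rw [sub_mul, hE₂, Matrix.mul_nonsing_inv _ hu, Matrix.smul_mul]
    have h3 : E₂ * QA = 1 - c • (E₂ * QB) := by
      conv_lhs => rw [h1]
      rw [mul_sub, hE₂, Matrix.nonsing_inv_mul _ hu, Matrix.mul_smul]
    rw [h2, mul_assoc, h3, sub_mul, mul_sub, one_mul, mul_one, Matrix.smul_mul, Matrix.mul_smul,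
      mul_assoc]
  -- commutation for the Kronecker form
  have hcomm : kron LA δ ε QA * F * kron LB δ ε QB = kron LB δ ε QB * F * kron LA δ ε QA := by
    rw [hF, hE₁]
    simp only [kron, fromBlocks_multiply, Matrix.mul_zero, Matrix.zero_mul, add_zero, zero_add]
    rw [toep_comm δ γ hγ, toep_comm' ε η hη, hank_comm, hcomm₂]
  -- injectivity
  have hFinj : ∀ v, F *ᵥ v = 0 → v = 0 := by
    intro v hv
    obtain ⟨v₁, hv₁⟩ : ∃ a, a = v ∘ Sum.inl := ⟨_, rfl⟩
    obtain ⟨v₂, hv₂⟩ : ∃ a, a = v ∘ Sum.inr := ⟨_, rfl⟩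
    obtain ⟨u, hu₁⟩ : ∃ a, a = v₁ ∘ Sum.inl := ⟨_, rfl⟩
    obtain ⟨w, hw₁⟩ : ∃ a, a = v₁ ∘ Sum.inr := ⟨_, rfl⟩
    rw [hF, fromBlocks_mulVec, ← hv₁, ← hv₂, Matrix.zero_mulVec, Matrix.zero_mulVec, add_zero,
      zero_add] at hv
    have a1 : E₁ *ᵥ v₁ = 0 := by
      funext x; exact congrFun hv (Sum.inl x)
    have a2 : E₂ *ᵥ v₂ = 0 := by
      funext x; exact congrFun hv (Sum.inr x)
    rw [hE₁, fromBlocks_mulVec, ← hu₁, ← hw₁, Matrix.zero_mulVec, add_zero] at a1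
    have b1 : toep δ γ *ᵥ u = 0 := by
      funext x; exact congrFun a1 (Sum.inl x)
    have b2 : hank δ ε h *ᵥ u + (toep ε η)ᵀ *ᵥ w = 0 := by
      funext x; exact congrFun a1 (Sum.inr x)
    have hu0 : u = 0 := by
      refine hh u (by rw [LinearMap.mem_ker]; exact b1) fun w' hw' => ?_
      have hw'0 : toep ε η *ᵥ w' = 0 := hw'
      have e : w' ⬝ᵥ (hank δ ε h *ᵥ u) = 0 := by
        have e1 : hank δ ε h *ᵥ u = - ((toep ε η)ᵀ *ᵥ w) := eq_neg_of_add_eq_zero_left b2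
        rw [e1, dotProduct_neg, Matrix.dotProduct_mulVec, Matrix.vecMul_transpose, hw'0,
          zero_dotProduct, neg_zero]
      exact e
    have hw0 : w = 0 := by
      rw [hu0, Matrix.mulVec_zero, zero_add] at b2
      refine dotProduct_eq_zero _ fun v' => ?_
      obtain ⟨u', hu'⟩ := hηs v'
      have e : v' = toep ε η *ᵥ u' := by
        funext x; rw [hu' x]; rfl
      rw [dotProduct_comm, e, ← Matrix.vecMul_transpose, ← Matrix.dotProduct_mulVec, b2,
        dotProduct_zero]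
    have hv₂0 : v₂ = 0 := by
      have e : (QA + c • QB) *ᵥ (E₂ *ᵥ v₂) = v₂ := by
        rw [Matrix.mulVec_mulVec, hE₂, Matrix.mul_nonsing_inv _ hu, Matrix.one_mulVec]
      rw [← e, a2, Matrix.mulVec_zero]
    funext x
    rcases x with (x | x) | x
    · have := congrFun hu0 x
      rw [hu₁, hv₁] at this
      exact this
    · have := congrFun hw0 x
      rw [hw₁, hv₁] at this
      exact this
    · have := congrFun hv₂0 x
      rw [hv₂] at this
      exact this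
  refine ⟨T * F * S, ?_, ?_⟩
  · rw [← Matrix.mulVec_injective_iff_isUnit]
    refine (injective_iff_map_eq_zero (Matrix.mulVecLin (T * F * S))).2 fun v hv => ?_
    rw [Matrix.mulVecLin_apply, ← Matrix.mulVec_mulVec, ← Matrix.mulVec_mulVec] at hv
    have h1 : F *ᵥ (S *ᵥ v) = 0 := by
      have := congrArg (fun y => T' *ᵥ y) hv
      simpa [Matrix.mulVec_mulVec, ← Matrix.mul_assoc, hT'] using this
    have h2 := hFinj _ h1
    have := congrArg (fun y => S' *ᵥ y) h2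
    simpa [Matrix.mulVec_mulVec, hS'] using this
  · have hSA : S * A = kron LA δ ε QA * T' := by
      rw [← hA, Matrix.mul_assoc (S * A), hT, Matrix.mul_one]
    have hSB : S * B = kron LB δ ε QB * T' := by
      rw [← hB, Matrix.mul_assoc (S * B), hT, Matrix.mul_one]
    have key : ∀ X Y : Matrix (Rows δ ε r) (Cols δ ε r) ℂ,
        T * F * (X * T') * (T * F * (Y * T')) = T * F * (X * F * Y) * T' := by
      intro X Y
      simp only [Matrix.mul_assoc]
      rw [← Matrix.mul_assoc T' T, hT', Matrix.one_mul]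
    rw [Commute, SemiconjBy, Matrix.mul_assoc (T * F) S A, Matrix.mul_assoc (T * F) S B, hSA, hSB,
      key, key, hcomm]

end Pool.Agent.Results.MP_3c4fb9_al.Commuting
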